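import Mathlib
import Pool.Agent.R528.RM.Mom3

set_option autoImplicit false

/-!
# The moments of the differences of square roots in random models of the primes

The integers are decided one after the other, and the only assumption is that the conditional
probability of choosing `n + 1`, given the decisions up to `n`, is `(1 + o(1)) / log n` almost surely;
no independence is assumed (Cramér's model and the Hawkins random sieve are examples).  Let
`p(0) < p(1) < ...` be the chosen integers and `d(n) = √p(n+1) - √p(n)`.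

Almost surely:

* `∑ d(n) ^ 2` over `p(n+1) ≤ x` is asymptotic to `(1/4) log² x`;
* for every `0 < α < 2` the sum of `d(n) ^ α` over `p(n+1) ≤ x` is asymptotic to
  `(Γ(α+1) 2 ^ (1-α) / (2-α)) x ^ (1 - α/2) (log x) ^ (α-1)`;
* for every `α > 2` the series `∑ d(n) ^ α` converges.
-/

open MeasureTheory Filter
open scoped Topology

namespace Pool.Agent.Results.MP_3998cf_nt.MomentsOfSquareRootDifferences

/-- the member number `n` (counted from `0`) of the set `S` of natural numbers -/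
noncomputable def member (S : Set ℕ) (n : ℕ) : ℕ := Nat.nth (fun a => a ∈ S) n

/-- the difference `√p(n+1) - √p(n)` -/
noncomputable def sqrtDiff (S : Set ℕ) (n : ℕ) : ℝ := √(member S (n + 1) : ℝ) - √(member S n : ℝ)

/-- the sum of `(√p(n+1) - √p(n)) ^ α` over the `n` with `p(n+1) ≤ x` -/
noncomputable def powerSum (S : Set ℕ) (α : ℝ) (x : ℕ) : ℝ :=
  ∑ n ∈ (Finset.range x).filter (fun n => member S (n + 1) ≤ x), sqrtDiff S n ^ α

open Pool.Agent.R528.RM

lemma powerSum_eq (S : Set ℕ) (α : ℝ) (x : ℕ) :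
    powerSum S α x = ∑ i ∈ idx S x, (√(pn S (i + 1) : ℝ) - √(pn S i : ℝ)) ^ α := by
  unfold powerSum idx
  exact Finset.sum_congr rfl fun _ _ => rfl

/-- powers are dominated by exponentials -/
lemma pow_exp {α : ℝ} (hα : 0 < α) : ∃ C : ℝ, ∀ t : ℝ, 0 ≤ t → |t ^ α| ≤ C * Real.exp (1 / 2 * t) := by
  set n := ⌈α⌉₊ with hn
  refine ⟨(2 : ℝ) ^ n * n.factorial * Real.exp (1 / 2), fun t ht => ?_⟩
  rw [abs_of_nonneg (Real.rpow_nonneg ht _)]
  have h1 : t ^ α ≤ (t + 1) ^ n := by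
    calc t ^ α ≤ (t + 1) ^ α := Real.rpow_le_rpow ht (by linarith) hα.le
      _ ≤ (t + 1) ^ (n : ℝ) := Real.rpow_le_rpow_of_exponent_le (by linarith) (Nat.le_ceil α)
      _ = (t + 1) ^ n := Real.rpow_natCast _ _
  have h2 := Real.pow_div_factorial_le_exp ((t + 1) / 2) (by linarith) n
  rw [div_pow, div_div, div_le_iff₀ (by positivity)] at h2
  have h3 : Real.exp ((t + 1) / 2) = Real.exp (1 / 2) * Real.exp (1 / 2 * t) := by
    rw [← Real.exp_add]; congr 1; ring
  rw [h3] at h2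
  calc t ^ α ≤ (t + 1) ^ n := h1
    _ ≤ _ := h2
    _ = _ := by ring

/-- the convergent case -/
lemma summable_case {S : Set ℕ} (hinf : S.Infinite) {α : ℝ} (hα : 2 < α)
    (hgap : ∀ᶠ n : ℕ in atTop, (pn S (n + 1) : ℝ) ≤ pn S n + 2 * Real.log (pn S n) ^ 2) :
    Summable (fun n => (√(pn S (n + 1) : ℝ) - √(pn S n : ℝ)) ^ α) := by
  set η : ℝ := (1 / 2 - 1 / α) / 2 with hη
  have hα0 : 0 < α := by linarith
  have h1α : 1 / α < 1 / 2 := by
    rw [div_lt_div_iff₀ hα0 (by norm_num)]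
    linarith
  have hη0 : 0 < η := by rw [hη]; linarith
  have hexp : -(α * (1 / 2 - η)) < -1 := by
    have : α * (1 / 2 - η) = α / 4 + 1 / 2 := by rw [hη]; field_simp; ring
    rw [this]
    linarith
  have hp : Tendsto (fun i => (pn S i : ℝ)) atTop atTop := (tendsto_natCast_atTop_atTop (R := ℝ)).comp (nth_mono hinf).tendsto_atTop
  have hlog := (isLittleO_log_rpow_rpow_atTop (2 : ℝ) hη0).def (show (0 : ℝ) < 1 by norm_num)
  have hmono := nth_mono hinf
  have hle : ∀ n, √(pn S n : ℝ) ≤ √(pn S (n + 1) : ℝ) := fun n =>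
    Real.sqrt_le_sqrt (by exact_mod_cast (hmono (Nat.lt_succ_self n)).le)
  apply Summable.of_norm_bounded_eventually_nat (g := fun n : ℕ => (n : ℝ) ^ (-(α * (1 / 2 - η)))) (Real.summable_nat_rpow.2 hexp)
  filter_upwards [hgap, hp.eventually hlog, hp.eventually_gt_atTop 1, eventually_gt_atTop 0] with n g1 g2 g3 g4
  have hp0 : (0 : ℝ) < pn S n := by linarith
  have hl : 0 < Real.log (pn S n : ℝ) := Real.log_pos g3
  have hlt : (pn S n : ℝ) < pn S (n + 1) := by exact_mod_cast hmono (Nat.lt_succ_self n)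
  have hd0 : 0 ≤ √(pn S (n + 1) : ℝ) - √(pn S n : ℝ) := by linarith [hle n]
  rw [one_mul, Real.norm_of_nonneg (Real.rpow_nonneg hl.le _), Real.norm_of_nonneg (Real.rpow_nonneg hp0.le _)] at g2
  have g2' : Real.log (pn S n : ℝ) ^ (2 : ℕ) ≤ (pn S n : ℝ) ^ η := by
    have : Real.log (pn S n : ℝ) ^ (2 : ℝ) = Real.log (pn S n : ℝ) ^ (2 : ℕ) := by
      rw [← Real.rpow_natCast]; norm_num
    rwa [this] at g2
  have g1' : (pn S (n + 1) : ℝ) ≤ pn S n + 2 * Real.log (pn S n) ^ (2 : ℕ) := g1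
  have hsp : 0 < √(pn S n : ℝ) := Real.sqrt_pos.2 hp0
  have h1 : √(pn S (n + 1) : ℝ) - √(pn S n : ℝ) ≤ (pn S n : ℝ) ^ (-(1 / 2 - η)) := by
    have e1 : (√(pn S (n + 1) : ℝ) - √(pn S n : ℝ)) * (2 * √(pn S n : ℝ)) ≤ 2 * (pn S n : ℝ) ^ η := by
      have e2 := Real.sq_sqrt (show (0 : ℝ) ≤ pn S (n + 1) by linarith)
      have e3 := Real.sq_sqrt hp0.le
      have e4 : (√(pn S (n + 1) : ℝ) - √(pn S n : ℝ)) * (√(pn S (n + 1) : ℝ) + √(pn S n : ℝ)) = (pn S (n + 1) : ℝ) - pn S n := by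
        have : (√(pn S (n + 1) : ℝ) - √(pn S n : ℝ)) * (√(pn S (n + 1) : ℝ) + √(pn S n : ℝ)) = √(pn S (n + 1) : ℝ) ^ 2 - √(pn S n : ℝ) ^ 2 := by ring
        rw [this, e2, e3]
      have e5 : (√(pn S (n + 1) : ℝ) - √(pn S n : ℝ)) * (2 * √(pn S n : ℝ)) ≤ (√(pn S (n + 1) : ℝ) - √(pn S n : ℝ)) * (√(pn S (n + 1) : ℝ) + √(pn S n : ℝ)) :=
        mul_le_mul_of_nonneg_left (by linarith [hle n]) hd0
      rw [e4] at e5
      refine e5.trans ?_
      have e6 : (pn S (n + 1) : ℝ) - pn S n ≤ 2 * Real.log (pn S n) ^ (2 : ℕ) := sub_le_iff_le_add'.2 g1'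
      exact e6.trans (mul_le_mul_of_nonneg_left g2' (by norm_num))
    have e4 : (pn S n : ℝ) ^ (-(1 / 2 - η)) = (pn S n : ℝ) ^ η / √(pn S n : ℝ) := by
      rw [Real.sqrt_eq_rpow, ← Real.rpow_sub hp0]
      congr 1
      ring
    rw [e4, le_div_iff₀ hsp]
    linarith
  have hn0 : (0 : ℝ) < n := by exact_mod_cast g4
  have hnp : (n : ℝ) ≤ pn S n := by exact_mod_cast hmono.le_apply
  have hpos2 : 0 < 1 / 2 - η := by rw [hη]; have : 0 < 1 / α := by positivity
                                   linarith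
  rw [Real.norm_of_nonneg (Real.rpow_nonneg hd0 _)]
  calc (√(pn S (n + 1) : ℝ) - √(pn S n : ℝ)) ^ α ≤ ((pn S n : ℝ) ^ (-(1 / 2 - η))) ^ α := Real.rpow_le_rpow hd0 h1 hα0.le
    _ = (pn S n : ℝ) ^ (-(α * (1 / 2 - η))) := by
        rw [← Real.rpow_mul hp0.le]
        congr 1
        ring
    _ ≤ (n : ℝ) ^ (-(α * (1 / 2 - η))) := by
        apply Real.rpow_le_rpow_of_nonpos hn0 hnp
        linarith

end Pool.Agent.Results.MP_3998cf_nt.MomentsOfSquareRootDifferences

open Pool.Agent.Results.MP_3998cf_nt.MomentsOfSquareRootDifferences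

/-- Let `A n` be the event that `n` belongs to a random set adapted to a filtration `ℱ`, and let the
conditional probability of `A (n + 1)` given `ℱ n`, times `log n`, tend to `1` almost surely.  Then
almost surely the random set is infinite and: the sum of `(√p(n+1) - √p(n)) ^ α` over the consecutive
members with `p(n+1) ≤ x` is asymptotic to
`(Γ(α+1) 2 ^ (1-α) / (2-α)) x ^ (1-α/2) (log x) ^ (α-1)` for every `0 < α < 2`, and to
`(1/4) log² x` for `α = 2`; and the series converges for every `α > 2`. -/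
theorem Pool.Agent.Results.MP_3998cf_nt.MomentsOfSquareRootDifferences.result
    {Ω : Type} [mΩ : MeasurableSpace Ω] (μ : Measure Ω) [IsProbabilityMeasure μ]
    (ℱ : Filtration ℕ mΩ) (A : ℕ → Set Ω) (hA : ∀ n, MeasurableSet[ℱ n] (A n))
    (hd : ∀ᵐ ω ∂μ, Tendsto (fun n : ℕ =>
      (μ[(A (n + 1)).indicator (fun _ => (1 : ℝ)) | ℱ n]) ω * Real.log n) atTop (𝓝 1)) :
    ∀ᵐ ω ∂μ, {n | ω ∈ A n}.Infinite ∧
      (∀ α : ℝ, 0 < α → α < 2 →
        Tendsto (fun x : ℕ => powerSum {n | ω ∈ A n} α x / ((x : ℝ) ^ (1 - α / 2) * Real.log x ^ (α - 1)))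
          atTop (𝓝 (Real.Gamma (α + 1) * 2 ^ (1 - α) / (2 - α)))) ∧
      Tendsto (fun x : ℕ => powerSum {n | ω ∈ A n} 2 x / Real.log x ^ 2) atTop (𝓝 (1 / 4)) ∧
      (∀ α : ℝ, 2 < α → Summable (fun n => sqrtDiff {n | ω ∈ A n} n ^ α)) := by
  have hd2 : ∀ᵐ ω ∂μ, Tendsto (fun n : ℕ => Pool.Agent.R528.RM.dens μ ℱ A n ω * Real.log n) atTop (𝓝 1) := hd
  filter_upwards [Pool.Agent.R528.RM.gap_law hA hd2] with ω hω
  obtain ⟨h1, _, h3⟩ := hω
  set S : Set ℕ := {n | ω ∈ A n} with hS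
  have hinf : S.Infinite := h1
  have hgap' : ∀ᶠ n : ℕ in atTop, (Pool.Agent.R528.RM.pn S (n + 1) : ℝ) ≤ Pool.Agent.R528.RM.pn S n + 2 * Real.log (Pool.Agent.R528.RM.pn S n) ^ 2 :=
    Pool.Agent.R528.RM.gap_of_law hinf h3
  have ht0 : ∀ N : ℕ, 0 ≤ Real.log (N : ℝ) / N := fun N => div_nonneg (Real.log_natCast_nonneg N) (Nat.cast_nonneg N)
  have hlaw : ∀ α : ℝ, 0 < α → Tendsto (fun N : ℕ => Pool.Agent.R528.RM.As S N (fun x => x ^ α) * (Real.log (N : ℝ) / N)) atTop (𝓝 (Real.Gamma (α + 1))) := by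
    intro α hα
    obtain ⟨C, hC⟩ := pow_exp hα
    have h5 := Pool.Agent.R528.RM.test_fun hinf ht0 h3 (f := fun x => x ^ α) (Real.continuous_rpow_const hα.le).continuousOn
      (s := 1 / 2) (C := C) (by norm_num) hC
    rw [Real.Gamma_eq_integral (by linarith)]
    have e : ∫ x in Set.Ioi (0 : ℝ), Real.exp (-x) * x ^ (α + 1 - 1) = ∫ x in Set.Ioi (0 : ℝ), x ^ α * Real.exp (-x) := by
      congr 1
      funext x
      rw [add_sub_cancel_right, mul_comm]
    rw [e]
    exact h5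
  refine ⟨hinf, fun α hα0 hα2 => ?_, ?_, fun α hα => summable_case hinf hα hgap'⟩
  · have hγ : 0 < 1 - α / 2 := by linarith
    have h5 := Pool.Agent.R528.RM.moment_core hinf hα0 (Real.Gamma_pos_of_pos (by linarith : 0 < α + 1)) (hlaw α hα0) hgap'
      (U := fun n : ℕ => (n : ℝ) ^ (1 - α / 2) * Real.log n ^ (α - 1)) hγ (Pool.Agent.R528.RM.Utt hγ (α - 1)) (by
        have := Pool.Agent.R528.RM.inc_ratio (1 - α / 2) (α - 1)
        refine this.congr fun n => ?_
        push_cast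
        congr 3
        ring)
    have e : Real.Gamma (α + 1) * 2 ^ (-α) / (1 - α / 2) = Real.Gamma (α + 1) * 2 ^ (1 - α) / (2 - α) := by
      have e1 : (2 : ℝ) ^ (1 - α) = 2 * 2 ^ (-α) := by
        rw [show 1 - α = 1 + -α by ring, Real.rpow_add (by norm_num), Real.rpow_one]
      rw [e1]
      have h6 : 2 - α ≠ 0 := by linarith
      have h7 : 1 - α / 2 ≠ 0 := by linarith
      field_simp
    rw [e] at h5
    refine h5.congr fun x => ?_
    rw [powerSum_eq]
  · have h5 := Pool.Agent.R528.RM.moment_core hinf (α := 2) (by norm_num) (Real.Gamma_pos_of_pos (by norm_num : (0 : ℝ) < 2 + 1)) (hlaw 2 (by norm_num)) hgap'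
      (U := fun n : ℕ => Real.log n ^ (2 : ℝ)) (γ := 2) (by norm_num) (by
        exact (tendsto_rpow_atTop (by norm_num : (0 : ℝ) < 2)).comp Pool.Agent.R528.RM.log_tt) (by
        have := Pool.Agent.R528.RM.inc_ratio0 2
        refine this.congr fun n => ?_
        have e1 : -((2 : ℝ) / 2) = -1 := by norm_num
        rw [e1]
        push_cast
        rfl)
    have e : Real.Gamma (2 + 1) * 2 ^ (-(2 : ℝ)) / 2 = 1 / 4 := by
      have e1 : Real.Gamma ((2 : ℝ) + 1) = 2 := by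
        have := Real.Gamma_nat_eq_factorial 2
        norm_num at this
        norm_num
      rw [e1, Real.rpow_neg (by norm_num)]
      norm_num
    rw [e] at h5
    refine h5.congr fun x => ?_
    rw [powerSum_eq]
    congr 1
    rw [← Real.rpow_natCast]
    norm_num
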