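import Mathlib
import Pool.Agent.R935.JL.Exact

set_option autoImplicit false

/-!
# Differences of the square roots of consecutive rough integers

Sifting by the primes up to a small power of `X`: in all intervals of length at least `X ^ θ` beyond `X` the
differences `√m' - √m` of the square roots of consecutive remaining integers `m < m'` (which include all the
primes) are at most `X ^ (θ - 1/2)`, and any number of consecutive differences, divided by their mean size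
`1 / (2 √m V)`, are asymptotically independent exponential random variables, jointly with the residues.
-/

namespace Pool.Agent.Results.MP_3998cf_nt.RoughDifferences

open Finset Filter
open Pool.Agent.R463.PS Pool.Agent.R935.JL

/-- `m` has no prime factor `p ≤ X ^ (1 / r)` -/
def Rough (X r m : ℕ) : Prop := ∀ p : ℕ, p.Prime → (p : ℝ) ≤ (X : ℝ) ^ (1 / (r : ℝ)) → ¬ p ∣ m

/-- the first rough integer after `m` -/
noncomputable def next (X r m : ℕ) : ℕ := sInf {l | m < l ∧ Rough X r l}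

/-- the density: the product of `1 - 1 / p` over the primes `p ≤ X ^ (1 / r)` -/
noncomputable def V (X r : ℕ) : ℝ :=
  ∏ p ∈ (Icc 1 ⌊(X : ℝ) ^ (1 / (r : ℝ))⌋₊).filter Nat.Prime, (1 - 1 / (p : ℝ))

/-- the difference of the square roots of `m` and of the next rough integer, divided by `1 / (2 √m V)` -/
noncomputable def D (X r m : ℕ) : ℝ :=
  2 * √(m : ℝ) * V X r * (√(next X r m : ℝ) - √(m : ℝ))

/-- the reduced residues modulo `q` -/
def Classes (q : ℕ) : Finset ℕ := (range q).filter (fun a => Nat.Coprime q a)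

/-- The number of the rough `m` in `(Z, Z + Y]` with `m ≡ a (mod q)` such that the next `K` rough
`m_1 < m_2 < ... < m_K` after `m = m_0` satisfy `m_(j + 1) ≡ b j (mod q)` and
`x j < D (m_j) ≤ y j` for all `j < K`. -/
noncomputable def Runs (X r q K a : ℕ) (b : ℕ → ℕ) (x y : ℕ → ℝ) (Z Y : ℕ) : ℕ :=
  Set.ncard {m : ℕ | Z < m ∧ m ≤ Z + Y ∧ Rough X r m ∧ m % q = a ∧
    ∀ j < K, (next X r)^[j + 1] m % q = b j ∧ x j < D X r ((next X r)^[j] m) ∧
      D X r ((next X r)^[j] m) ≤ y j}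

lemma rough_iff (X r m : ℕ) : Rough X r m ↔ Sifted idf X r m := (idf_sift X r m).symm

lemma next_eq (X r : ℕ) : next X r = Pool.Agent.R463.PP.next (Sifted idf X r) := by
  funext m
  unfold next Pool.Agent.R463.PP.next
  simp only [rough_iff]

lemma V_eq (X r : ℕ) : V X r = Pool.Agent.R463.PS.V idf X r := V1_eq X r

lemma idf_eval (x : ℤ) (i : Fin 1) : (idf i).eval x = x := by
  have h : idf i = Polynomial.C 1 * Polynomial.X + Polynomial.C 0 := rfl
  rw [h]
  simp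

lemma classes_eq (q : ℕ) : Classes q = Pool.Agent.R463.PP.Cl idf q := by
  classical
  unfold Classes Pool.Agent.R463.PP.Cl
  apply filter_congr
  intro a _
  simp only [idf_eval]
  constructor
  · intro h p hp hpq _ hd
    have h1 : p ∣ a := by exact_mod_cast hd
    have h2 := Nat.dvd_gcd hpq h1
    rw [Nat.Coprime.gcd_eq_one h] at h2
    exact hp.one_lt.ne' (Nat.dvd_one.1 h2)
  · intro h
    by_contra hne
    obtain ⟨p, hp, hpd⟩ := Nat.exists_prime_and_dvd hne
    exact h p hp (hpd.trans (Nat.gcd_dvd_left _ _)) 0 (by exact_mod_cast hpd.trans (Nat.gcd_dvd_right _ _))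

/-- the gap as a function of the normalised difference -/
lemma gap_eq {v : ℝ} (hv : 0 < v) (m n : ℕ) (hm : 0 < m) :
    v * ((n : ℝ) - m) = (2 * √(m : ℝ) * v * (√(n : ℝ) - √(m : ℝ))) +
      (2 * √(m : ℝ) * v * (√(n : ℝ) - √(m : ℝ))) ^ 2 / (4 * m * v) := by
  have h1 : (0 : ℝ) < m := by exact_mod_cast hm
  have h2 : √(m : ℝ) ^ 2 = m := Real.sq_sqrt h1.le
  have h3 : √(n : ℝ) ^ 2 = n := Real.sq_sqrt (Nat.cast_nonneg _)
  have e : (2 * √(m : ℝ) * v * (√(n : ℝ) - √(m : ℝ))) ^ 2 / (4 * m * v) = v * (√(n : ℝ) - √(m : ℝ)) ^ 2 := by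
    rw [mul_pow, mul_pow, mul_pow, h2]
    field_simp
    ring
  rw [e]
  nlinarith

lemma prod_close (K : ℕ) (f g : ℕ → ℝ) (e : ℝ) (he : 0 ≤ e) (hf : ∀ j < K, |f j| ≤ 1) (hg : ∀ j < K, |g j| ≤ 1)
    (h : ∀ j < K, |f j - g j| ≤ e) : |∏ j ∈ range K, f j - ∏ j ∈ range K, g j| ≤ K * e := by
  induction K with
  | zero => simp
  | succ K ih =>
    rw [prod_range_succ, prod_range_succ]
    have h1 := ih (fun j hj => hf j (by omega)) (fun j hj => hg j (by omega)) (fun j hj => h j (by omega))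
    have h2 : |∏ j ∈ range K, f j| ≤ 1 := by
      rw [Finset.abs_prod]
      exact Finset.prod_le_one (fun _ _ => abs_nonneg _) (fun j hj => hf j (by have := mem_range.1 hj; omega))
    have e1 : (∏ j ∈ range K, f j) * f K - (∏ j ∈ range K, g j) * g K =
        (∏ j ∈ range K, f j) * (f K - g K) + (∏ j ∈ range K, f j - ∏ j ∈ range K, g j) * g K := by ring
    rw [e1]
    refine (abs_add_le _ _).trans ?_
    rw [abs_mul, abs_mul]
    have h3 : |∏ j ∈ range K, f j| * |f K - g K| ≤ 1 * e :=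
      mul_le_mul h2 (h K (by omega)) (abs_nonneg _) zero_le_one
    have h4 : |∏ j ∈ range K, f j - ∏ j ∈ range K, g j| * |g K| ≤ K * e * 1 :=
      mul_le_mul h1 (hg K (by omega)) (abs_nonneg _) (by positivity)
    push_cast
    linarith

lemma exp_close {a b e : ℝ} (ha : 0 ≤ a) (hb : 0 ≤ b) (h : |a - b| ≤ e) :
    |Real.exp (-a) - Real.exp (-b)| ≤ e := by
  obtain ⟨h1, h2⟩ := abs_le.1 h
  have key : ∀ a b : ℝ, 0 ≤ a → 0 ≤ b → a ≤ b → Real.exp (-a) - Real.exp (-b) ≤ b - a := by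
    intro a b ha _ hab
    have h3 : Real.exp (-b) = Real.exp (-a) * Real.exp (-(b - a)) := by
      rw [← Real.exp_add]
      congr 1
      ring
    have h4 := Real.add_one_le_exp (-(b - a))
    have h5 : Real.exp (-a) ≤ 1 := Real.exp_le_one_iff.2 (by linarith)
    have h6 : Real.exp (-a) * (1 - (b - a)) ≤ Real.exp (-a) * Real.exp (-(b - a)) :=
      mul_le_mul_of_nonneg_left (by linarith) (Real.exp_nonneg _)
    rw [h3]
    nlinarith [Real.exp_nonneg (-a)]
  rw [abs_le]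
  rcases le_total a b with hab | hab
  · have h3 := key a b ha hb hab
    have h4 : Real.exp (-b) ≤ Real.exp (-a) := Real.exp_le_exp.2 (by linarith)
    constructor <;> linarith
  · have h3 := key b a hb ha hab
    have h4 : Real.exp (-a) ≤ Real.exp (-b) := Real.exp_le_exp.2 (by linarith)
    constructor <;> linarith

/-- the primes `p > X` are rough -/
lemma rough_prime {X r p : ℕ} (hX : 1 ≤ X) (hr : 1 ≤ r) (hp : p.Prime) (hXp : X < p) : Rough X r p := by
  intro q hq hqX hd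
  have h1 : q = p := (Nat.prime_dvd_prime_iff_eq hq hp).1 hd
  have hX1 : (1 : ℝ) ≤ X := by exact_mod_cast hX
  have hr1 : (1 : ℝ) ≤ r := by exact_mod_cast hr
  have h2 : (X : ℝ) ^ (1 / (r : ℝ)) ≤ X := by
    calc (X : ℝ) ^ (1 / (r : ℝ)) ≤ (X : ℝ) ^ (1 : ℝ) :=
          Real.rpow_le_rpow_of_exponent_le hX1 (by rw [div_le_one (by linarith)]; exact hr1)
      _ = X := Real.rpow_one _
  have h3 : (q : ℝ) ≤ X := hqX.trans h2
  have h4 : q ≤ X := by exact_mod_cast h3
  omega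

lemma rough_fewf {X r m : ℕ} (hr : 1 ≤ r) (hX : ((2 : ℕ) : ℝ) ≤ (X : ℝ) ^ (1 / (r : ℝ)))
    (hm : m ≠ 0) (hmX : m ≤ X ^ 2) (h : Rough X r m) : m.primeFactorsList.length ≤ 2 * r := by
  have hr1 : (0 : ℝ) < r := by exact_mod_cast (by omega : 0 < r)
  push_cast at hX
  refine rough_few _ (by linarith) m (2 * r) hm ?_ h
  have e : ((X : ℝ) ^ (1 / (r : ℝ))) ^ r = X := by
    rw [← Real.rpow_natCast, ← Real.rpow_mul (Nat.cast_nonneg _), one_div, inv_mul_cancel₀ hr1.ne',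
      Real.rpow_one]
  rw [mul_comm 2 r, pow_mul, e]
  exact_mod_cast hmX

section
variable {X r : ℕ} (hS : ∀ n, ∃ m, n < m ∧ Sifted idf X r m)
include hS

lemma iter_ge (m j : ℕ) : m ≤ (Pool.Agent.R463.PP.next (Sifted idf X r))^[j] m := by
  induction j with
  | zero => exact le_rfl
  | succ j ih =>
    rw [Function.iterate_succ_apply']
    exact ih.trans (next_spec hS _).1.le

/-- the gap and the normalised difference -/
lemma gap_D {v : ℝ} (hv : v = V X r) (hv0 : 0 < v) (m : ℕ) (hm : 0 < m) :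
    v * (((Pool.Agent.R463.PP.next (Sifted idf X r) m - m : ℕ)) : ℝ) = D X r m + D X r m ^ 2 / (4 * m * v) ∧
      0 ≤ D X r m := by
  have h1 := (next_spec hS m).1
  rw [Nat.cast_sub h1.le]
  have h2 := gap_eq hv0 m (Pool.Agent.R463.PP.next (Sifted idf X r) m) hm
  have e : D X r m = 2 * √(m : ℝ) * v * (√(Pool.Agent.R463.PP.next (Sifted idf X r) m : ℝ) - √(m : ℝ)) := by
    unfold D
    rw [next_eq, hv]
  rw [e]
  refine ⟨h2, ?_⟩
  have h3 : √(m : ℝ) ≤ √(Pool.Agent.R463.PP.next (Sifted idf X r) m : ℝ) :=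
    Real.sqrt_le_sqrt (by exact_mod_cast h1.le)
  have h4 : 0 ≤ √(Pool.Agent.R463.PP.next (Sifted idf X r) m : ℝ) - √(m : ℝ) := by linarith
  positivity

lemma D_gap_upper {v B x y : ℝ} (hv : v = V X r) (hv0 : 0 < v) (hX : 0 < X) (m : ℕ) (hm : X ≤ m) (hx0 : 0 ≤ x)
    (hyB : y ≤ B) (h1 : x < D X r m) (h2 : D X r m ≤ y) :
    ⌊x / v⌋₊ < Pool.Agent.R463.PP.next (Sifted idf X r) m - m ∧
      Pool.Agent.R463.PP.next (Sifted idf X r) m - m ≤ ⌊(y + B ^ 2 / (4 * X * v)) / v⌋₊ := by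
  obtain ⟨h3, h4⟩ := gap_D hS hv hv0 m (by omega)
  have hm0 : (0 : ℝ) < m := by exact_mod_cast (by omega : 0 < m)
  have hX0 : (0 : ℝ) < X := by exact_mod_cast hX
  have hmX : (X : ℝ) ≤ m := by exact_mod_cast hm
  obtain ⟨g, hg⟩ : ∃ g, g = Pool.Agent.R463.PP.next (Sifted idf X r) m - m := ⟨_, rfl⟩
  rw [← hg] at h3 ⊢
  constructor
  · rw [Nat.floor_lt (by positivity), div_lt_iff₀ hv0]
    have : 0 ≤ D X r m ^ 2 / (4 * m * v) := by positivity
    linarith
  · apply Nat.le_floor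
    rw [le_div_iff₀ hv0]
    have h5 : D X r m ^ 2 ≤ B ^ 2 := pow_le_pow_left₀ h4 (h2.trans hyB) 2
    have h6 : D X r m ^ 2 / (4 * m * v) ≤ B ^ 2 / (4 * X * v) := by gcongr
    linarith

lemma D_gap_lower {v B x y : ℝ} (hv : v = V X r) (hv0 : 0 < v) (hX : 0 < X) (m : ℕ) (hm : X ≤ m) (hx0 : 0 ≤ x)
    (hxB : x ≤ B) (hy0 : 0 ≤ y)
    (h1 : ⌊(x + B ^ 2 / (4 * X * v)) / v⌋₊ < Pool.Agent.R463.PP.next (Sifted idf X r) m - m)
    (h2 : Pool.Agent.R463.PP.next (Sifted idf X r) m - m ≤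
      max ⌊(x + B ^ 2 / (4 * X * v)) / v⌋₊ ⌊y / v⌋₊) :
    x < D X r m ∧ D X r m ≤ y := by
  obtain ⟨h3, h4⟩ := gap_D hS hv hv0 m (by omega)
  have hm0 : (0 : ℝ) < m := by exact_mod_cast (by omega : 0 < m)
  have hX0 : (0 : ℝ) < X := by exact_mod_cast hX
  have hmX : (X : ℝ) ≤ m := by exact_mod_cast hm
  obtain ⟨g, hg⟩ : ∃ g, g = Pool.Agent.R463.PP.next (Sifted idf X r) m - m := ⟨_, rfl⟩
  rw [← hg] at h1 h2 h3
  have h5 : g ≤ ⌊y / v⌋₊ := by
    rcases le_max_iff.1 h2 with h | h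
    · omega
    · exact h
  have h6 : (g : ℝ) ≤ y / v := (Nat.le_floor_iff (by positivity)).1 h5
  rw [le_div_iff₀ hv0] at h6
  rw [Nat.floor_lt (by positivity), div_lt_iff₀ hv0] at h1
  constructor
  · by_contra hcon
    push Not at hcon
    have h7 : D X r m ^ 2 ≤ B ^ 2 := pow_le_pow_left₀ h4 (hcon.trans hxB) 2
    have h8 : D X r m ^ 2 / (4 * m * v) ≤ B ^ 2 / (4 * X * v) := by gcongr
    linarith
  · have : 0 ≤ D X r m ^ 2 / (4 * m * v) := by positivity
    linarith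

end

lemma floor_close {v u : ℝ} (hv : 0 < v) (hu : 0 ≤ u) : v * ⌊u / v⌋₊ ≤ u ∧ u < v * ⌊u / v⌋₊ + v := by
  have h1 : (⌊u / v⌋₊ : ℝ) ≤ u / v := Nat.floor_le (by positivity)
  have h2 : u / v < ⌊u / v⌋₊ + 1 := Nat.lt_floor_add_one _
  rw [le_div_iff₀ hv] at h1
  rw [div_lt_iff₀ hv] at h2
  constructor <;> linarith

/-- the main terms -/
lemma main_close {v γ : ℝ} (hv : 0 < v) (hγ : 0 ≤ γ) (K : ℕ) (x y : ℕ → ℝ) (s t : ℕ → ℕ)
    (hx : ∀ j < K, 0 ≤ x j ∧ x j ≤ y j) (hs : ∀ j < K, |v * s j - x j| ≤ v + γ)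
    (ht : ∀ j < K, |v * t j - y j| ≤ v + γ) :
    |∏ j ∈ range K, (Real.exp (-(v * s j)) - Real.exp (-(v * t j))) -
      ∏ j ∈ range K, (Real.exp (-x j) - Real.exp (-y j))| ≤ K * (2 * (v + γ)) := by
  have hone : ∀ a b : ℝ, 0 ≤ a → 0 ≤ b → |Real.exp (-a) - Real.exp (-b)| ≤ 1 := by
    intro a b ha hb
    have h1 : Real.exp (-a) ≤ 1 := Real.exp_le_one_iff.2 (by linarith)
    have h2 : Real.exp (-b) ≤ 1 := Real.exp_le_one_iff.2 (by linarith)
    have h3 := Real.exp_pos (-a)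
    have h4 := Real.exp_pos (-b)
    rw [abs_le]
    constructor <;> linarith
  apply prod_close K _ _ _ (by positivity)
  · intro j _
    exact hone _ _ (by positivity) (by positivity)
  · intro j hj
    exact hone _ _ (hx j hj).1 ((hx j hj).1.trans (hx j hj).2)
  · intro j hj
    have h1 := exp_close (a := v * s j) (b := x j) (by positivity) (hx j hj).1 (hs j hj)
    have h2 := exp_close (a := v * t j) (b := y j) (by positivity) ((hx j hj).1.trans (hx j hj).2) (ht j hj)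
    have e : Real.exp (-(v * s j)) - Real.exp (-(v * t j)) - (Real.exp (-x j) - Real.exp (-y j)) =
        (Real.exp (-(v * s j)) - Real.exp (-x j)) - (Real.exp (-(v * t j)) - Real.exp (-y j)) := by ring
    rw [e]
    refine (abs_sub _ _).trans ?_
    linarith

/-- **Differences of the square roots of consecutive rough integers.** Let `θ > 0`, `K ≥ 0`, `q ≥ 1`, `B` and
`ε > 0`. There is `r₀` such that for all `r ≥ r₀` and all large `X` (rough: without prime factor
`≤ X ^ (1 / r)`):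
(1) every prime `p > X` is rough, and every rough `0 < m ≤ X ^ 2` has at most `2 r` prime factors;
(2) for all `m ≥ X` and the next rough `m'`, `√m' - √m ≤ X ^ (θ - 1 / 2)`;
(3) in every interval `(Z, Z + Y]` with `Z ≥ X` and `Y ≥ X ^ θ`, for all reduced residues `a`, `b j` modulo `q`
and all `0 ≤ x j ≤ y j ≤ B`, the number `Runs` is
`Y V / φ(q) ^ (K + 1) * ∏_(j < K) (exp (- x j) - exp (- y j))` up to `ε Y V`. -/
theorem result (θ : ℝ) (hθ : 0 < θ) (K q : ℕ) (hq : 1 ≤ q) (B : ℝ) (ε : ℝ) (hε : 0 < ε) :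
    ∃ r₀ : ℕ, ∀ r : ℕ, r₀ ≤ r → ∀ᶠ X : ℕ in atTop,
      ((∀ p : ℕ, p.Prime → X < p → Rough X r p) ∧
        ∀ m : ℕ, m ≠ 0 → m ≤ X ^ 2 → Rough X r m → m.primeFactorsList.length ≤ 2 * r) ∧
      (∀ m : ℕ, X ≤ m → √(next X r m : ℝ) - √(m : ℝ) ≤ (X : ℝ) ^ (θ - 1 / 2)) ∧
      ∀ Z Y : ℕ, X ≤ Z → (X : ℝ) ^ θ ≤ Y → ∀ a ∈ Classes q, ∀ b : ℕ → ℕ, (∀ j < K, b j ∈ Classes q) →
        ∀ x y : ℕ → ℝ, (∀ j < K, 0 ≤ x j ∧ x j ≤ y j ∧ y j ≤ B) →
          |(Runs X r q K a b x y Z Y : ℝ) - Y * V X r / q.totient ^ (K + 1) *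
            ∏ j ∈ range K, (Real.exp (-x j) - Real.exp (-y j))| ≤ ε * (Y * V X r) := by
  have hq0 : 0 < q.totient := Nat.totient_pos.2 hq
  obtain ⟨r1, h1⟩ := Pool.Agent.R463.PP.joint_full 1 1 q K hq 1 1 θ one_pos one_pos hθ (ε / 2) (by positivity)
  obtain ⟨r2, h2⟩ := count 1 1 θ (1 / 2) hθ (by norm_num)
  refine ⟨max (max r1 2) r2, fun r hr => ?_⟩
  have hr1 : r1 ≤ r := (le_max_left _ _).trans ((le_max_left _ _).trans hr)
  have hr2' : 2 ≤ r := (le_max_right _ _).trans ((le_max_left _ _).trans hr)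
  have hr2 : r2 ≤ r := (le_max_right _ _).trans hr
  obtain ⟨C, hC, hV⟩ := idf_V r hr2'
  obtain ⟨c, hc, hlow⟩ := low (k := 1) (D := 1) r hr2'
  obtain ⟨M, hM⟩ : ∃ M : ℝ, M = 2 * (K + 1) * (B ^ 2 + 1) / (c * ε) := ⟨_, rfl⟩
  have hM0 : 0 < M := by rw [hM]; positivity
  have hlogX : Tendsto (fun X : ℕ => Real.log (X : ℝ)) atTop atTop :=
    Real.tendsto_log_atTop.comp tendsto_natCast_atTop_atTop
  have hpow : ∀ᶠ X : ℕ in atTop, (1 : ℝ) ≤ (X : ℝ) ^ θ :=
    ((tendsto_rpow_atTop hθ).comp tendsto_natCast_atTop_atTop).eventually_ge_atTop _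
  filter_upwards [h1 r hr1 C, h2 r hr2 C, hV, hlow, logpow_rpow' (1 * 1 + 1) M 1 hM0 one_pos,
    eventually_ge_atTop 3, ev_large r (by omega) 2, hpow,
    hlogX.eventually_ge_atTop (8 * (K + 1) * C / ε)] with X h1 h2 hV hlow hM1 hX3 h5 hpow hlog
  have hX1 : (1 : ℝ) ≤ X := by exact_mod_cast (by omega : 1 ≤ X)
  have hX0 : (0 : ℝ) < X := by linarith
  have hlogn : 0 < Real.log (X : ℝ) := Real.log_pos (by exact_mod_cast (by omega : 1 < X))
  have hsys : System 1 ((X : ℝ) ^ (1 : ℝ)) ((X : ℝ) ^ (1 : ℝ)) idf :=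
    idf_sys _ _ (Real.one_le_rpow hX1 one_pos.le)
  have hlow' := hlow _ _ idf hsys
  have hV0 : 0 < Pool.Agent.R463.PS.V idf X r := lt_of_lt_of_le (by positivity) hlow'
  obtain ⟨v, hv⟩ : ∃ v, v = V X r := ⟨_, rfl⟩
  have hv' : v = Pool.Agent.R463.PS.V idf X r := by rw [hv, V_eq]
  have hv0 : 0 < v := by rw [hv']; exact hV0
  have hS : ∀ l, ∃ m, l < m ∧ m ≤ l + ⌈(X : ℝ) ^ θ⌉₊ ∧ Sifted idf X r m := by
    intro l
    have h4 := (abs_le.1 (h2 idf hsys hV l ⌈(X : ℝ) ^ θ⌉₊ (Nat.le_ceil _))).1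
    have h8 : (0 : ℝ) < (⌈(X : ℝ) ^ θ⌉₊ : ℝ) := lt_of_lt_of_le (by linarith) (Nat.le_ceil _)
    have h7 : 0 < (⌈(X : ℝ) ^ θ⌉₊ : ℝ) * Pool.Agent.R463.PS.V idf X r := by positivity
    have h5 : (0 : ℝ) < ((Set.ncard {m : ℕ | l < m ∧ m ≤ l + ⌈(X : ℝ) ^ θ⌉₊ ∧ Sifted idf X r m} : ℕ) : ℝ) := by
      linarith
    have h6 : 0 < Set.ncard {m : ℕ | l < m ∧ m ≤ l + ⌈(X : ℝ) ^ θ⌉₊ ∧ Sifted idf X r m} := by exact_mod_cast h5
    obtain ⟨m, hm⟩ := Set.nonempty_of_ncard_ne_zero h6.ne'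
    exact ⟨m, hm⟩
  have hS' : ∀ l, ∃ m, l < m ∧ Sifted idf X r m := fun l => by
    obtain ⟨m, hm1, _, hm2⟩ := hS l
    exact ⟨m, hm1, hm2⟩
  refine ⟨⟨fun p hp hXp => rough_prime (by omega) (by omega) hp hXp, fun m hm hmX hg =>
    rough_fewf (by omega) h5 hm hmX hg⟩, ?_, ?_⟩
  · -- the differences are small
    intro m hm
    rw [next_eq]
    obtain ⟨n, hn1, hn2, hn3⟩ := hS m
    have h6 : Pool.Agent.R463.PP.next (Sifted idf X r) m ≤ n := next_le hn1 hn3
    have h7 := (next_spec hS' m).1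
    obtain ⟨n', hn'⟩ : ∃ n', n' = Pool.Agent.R463.PP.next (Sifted idf X r) m := ⟨_, rfl⟩
    rw [← hn'] at h6 h7 ⊢
    have hm0 : (0 : ℝ) < m := by exact_mod_cast (by omega : 0 < m)
    have hmX : (X : ℝ) ≤ m := by exact_mod_cast hm
    have h8 : (n' : ℝ) - m ≤ 2 * (X : ℝ) ^ θ := by
      have h9 : n' ≤ m + ⌈(X : ℝ) ^ θ⌉₊ := h6.trans hn2
      have h10 : (n' : ℝ) ≤ m + ⌈(X : ℝ) ^ θ⌉₊ := by exact_mod_cast h9
      have h11 : (⌈(X : ℝ) ^ θ⌉₊ : ℝ) < (X : ℝ) ^ θ + 1 := Nat.ceil_lt_add_one (by positivity)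
      linarith
    have hs1 : √(X : ℝ) ≤ √(m : ℝ) := Real.sqrt_le_sqrt hmX
    have hs2 : √(m : ℝ) ≤ √(n' : ℝ) := Real.sqrt_le_sqrt (by exact_mod_cast h7.le)
    have hs0 : 0 < √(X : ℝ) := Real.sqrt_pos.2 hX0
    have h12 : (√(n' : ℝ) - √(m : ℝ)) * (2 * √(X : ℝ)) ≤ 2 * (X : ℝ) ^ θ := by
      calc (√(n' : ℝ) - √(m : ℝ)) * (2 * √(X : ℝ)) ≤ (√(n' : ℝ) - √(m : ℝ)) * (√(n' : ℝ) + √(m : ℝ)) :=
            mul_le_mul_of_nonneg_left (by linarith) (by linarith)
        _ = √(n' : ℝ) ^ 2 - √(m : ℝ) ^ 2 := by ring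
        _ = n' - m := by rw [Real.sq_sqrt (Nat.cast_nonneg _), Real.sq_sqrt (Nat.cast_nonneg _)]
        _ ≤ _ := h8
    rw [Real.rpow_sub hX0, ← Real.sqrt_eq_rpow, le_div_iff₀ hs0]
    linarith
  · intro Z Y hZ hY a ha b hb x y hxy
    obtain ⟨γ, hγ⟩ : ∃ γ : ℝ, γ = B ^ 2 / (4 * X * v) := ⟨_, rfl⟩
    have hγ0 : 0 ≤ γ := by rw [hγ]; positivity
    have hYV : 0 ≤ (Y : ℝ) * v := by positivity
    -- the error terms
    have hsmall : (K : ℝ) * (2 * (v + γ)) ≤ ε / 2 := by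
      have hK0 : (0 : ℝ) ≤ K := Nat.cast_nonneg _
      have e1 : (K + 1 : ℝ) * v ≤ ε / 8 := by
        have h6 : v ≤ C / Real.log X := by rw [hv']; exact hV
        rw [le_div_iff₀ hlogn] at h6
        rw [div_le_iff₀ hε] at hlog
        have h7 : v * (8 * (K + 1) * C) ≤ v * (Real.log X * ε) := mul_le_mul_of_nonneg_left hlog hv0.le
        have h8 : v * Real.log X * ε ≤ C * ε := mul_le_mul_of_nonneg_right h6 hε.le
        have h9 : C * (8 * ((K + 1) * v)) ≤ C * ε := by linarith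
        have h10 := le_of_mul_le_mul_left h9 hC
        linarith
      have e2 : (K + 1 : ℝ) * γ ≤ ε / 8 := by
        rw [Real.rpow_one] at hM1
        rw [← hv', div_le_iff₀ (by positivity)] at hlow'
        have h6 : M * c ≤ X * v := by
          calc M * c ≤ M * (v * Real.log (X : ℝ) ^ (1 * 1 + 1)) := mul_le_mul_of_nonneg_left hlow' hM0.le
            _ = M * Real.log (X : ℝ) ^ (1 * 1 + 1) * v := by ring
            _ ≤ X * v := mul_le_mul_of_nonneg_right hM1 hv0.le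
        have h7 : M * c = 2 * (K + 1) * (B ^ 2 + 1) / ε := by
          rw [hM]
          field_simp
        rw [h7, div_le_iff₀ hε] at h6
        rw [hγ, mul_div_assoc', div_le_iff₀ (by positivity)]
        nlinarith
      nlinarith
    -- the prefactor
    have hpre : Y * v / (q.totient : ℝ) ^ (K + 1) ≤ Y * v :=
      div_le_self hYV (one_le_pow₀ (by exact_mod_cast hq0))
    have hpre0 : 0 ≤ Y * v / (q.totient : ℝ) ^ (K + 1) := by positivity
    have hcl : ((Pool.Agent.R463.PP.Cl idf q).card : ℝ) = q.totient := by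
      rw [← classes_eq]
      rfl
    rw [classes_eq] at ha hb
    obtain ⟨g1, _⟩ := h1 _ hsys hV Z Y hY a ha b hb
    rw [← hv', hcl] at g1
    have hfin : ∀ P : ℕ → Prop, {m : ℕ | Z < m ∧ m ≤ Z + Y ∧ P m}.Finite := fun P =>
      (Set.finite_Iic (Z + Y)).subset fun _ hm => hm.2.1
    -- a general estimate
    have hgen : ∀ s t : ℕ → ℕ, (∀ j < K, s j ≤ t j) → (∀ j < K, |v * s j - x j| ≤ v + γ) →
        (∀ j < K, |v * t j - y j| ≤ v + γ) →
        |((Set.ncard {n : ℕ | Z < n ∧ n ≤ Z + Y ∧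
          Pool.Agent.R463.PP.Run (Sifted idf X r) q K a b s t n} : ℕ) : ℝ) -
          Y * v / (q.totient : ℝ) ^ (K + 1) * ∏ j ∈ range K, (Real.exp (-x j) - Real.exp (-y j))| ≤
          ε * (Y * v) := by
      intro s t hst hs ht
      have h6 := g1 s t hst
      have h7 := main_close hv0 hγ0 K x y s t (fun j hj => ⟨(hxy j hj).1, (hxy j hj).2.1⟩) hs ht
      have h8 : |Y * v / (q.totient : ℝ) ^ (K + 1) *
          ∏ j ∈ range K, (Real.exp (-(v * s j)) - Real.exp (-(v * t j))) -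
          Y * v / (q.totient : ℝ) ^ (K + 1) * ∏ j ∈ range K, (Real.exp (-x j) - Real.exp (-y j))| ≤
          ε / 2 * (Y * v) := by
        rw [← mul_sub, abs_mul, abs_of_nonneg hpre0]
        calc _ ≤ Y * v / (q.totient : ℝ) ^ (K + 1) * (ε / 2) :=
              mul_le_mul_of_nonneg_left (h7.trans hsmall) hpre0
          _ ≤ Y * v * (ε / 2) := mul_le_mul_of_nonneg_right hpre (by positivity)
          _ = _ := by ring
      refine (abs_sub_le _ _ _).trans ((add_le_add h6 h8).trans ?_)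
      linarith
    rw [← hv]
    have hmem : ∀ m, Z < m → ∀ j, X ≤ (Pool.Agent.R463.PP.next (Sifted idf X r))^[j] m := fun m hm j => by
      have := iter_ge hS' m j
      omega
    rw [abs_le]
    constructor
    · -- the lower bound
      obtain ⟨s, hs⟩ : ∃ s : ℕ → ℕ, s = fun j => ⌊(x j + B ^ 2 / (4 * X * v)) / v⌋₊ := ⟨_, rfl⟩
      obtain ⟨t, ht⟩ : ∃ t : ℕ → ℕ, t = fun j => max (s j) ⌊y j / v⌋₊ := ⟨_, rfl⟩
      have h6 := hgen s t (fun j _ => by rw [ht]; exact le_max_left _ _)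
        (fun j hj => by
          obtain ⟨e1, e2⟩ := floor_close (u := x j + B ^ 2 / (4 * X * v)) hv0
            (by have := (hxy j hj).1; positivity)
          rw [← hγ] at e1 e2
          rw [hs, abs_le]
          simp only
          rw [← hγ]
          constructor <;> linarith)
        (fun j hj => by
          obtain ⟨e1, e2⟩ := floor_close (u := x j + B ^ 2 / (4 * X * v)) hv0
            (by have := (hxy j hj).1; positivity)
          rw [← hγ] at e1 e2
          obtain ⟨e3, e4⟩ := floor_close (u := y j) hv0 ((hxy j hj).1.trans (hxy j hj).2.1)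
          have e5 := (hxy j hj).2.1
          rw [ht, hs, abs_le]
          simp only
          rw [← hγ]
          rcases le_total ⌊(x j + γ) / v⌋₊ ⌊y j / v⌋₊ with h | h
          · rw [max_eq_right h]
            constructor <;> linarith
          · rw [max_eq_left h]
            have h' : v * (⌊y j / v⌋₊ : ℝ) ≤ v * ⌊(x j + γ) / v⌋₊ :=
              mul_le_mul_of_nonneg_left (by exact_mod_cast h) hv0.le
            constructor <;> linarith)
      have h7 : ((Set.ncard {n : ℕ | Z < n ∧ n ≤ Z + Y ∧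
          Pool.Agent.R463.PP.Run (Sifted idf X r) q K a b s t n} : ℕ) : ℝ) ≤ Runs X r q K a b x y Z Y := by
        unfold Runs
        rw [next_eq]
        simp only [rough_iff]
        have : Set.ncard {n : ℕ | Z < n ∧ n ≤ Z + Y ∧
            Pool.Agent.R463.PP.Run (Sifted idf X r) q K a b s t n} ≤
            Set.ncard {m : ℕ | Z < m ∧ m ≤ Z + Y ∧ Sifted idf X r m ∧ m % q = a ∧
              ∀ j < K, (Pool.Agent.R463.PP.next (Sifted idf X r))^[j + 1] m % q = b j ∧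
                x j < D X r ((Pool.Agent.R463.PP.next (Sifted idf X r))^[j] m) ∧
                D X r ((Pool.Agent.R463.PP.next (Sifted idf X r))^[j] m) ≤ y j} := by
          apply Set.ncard_le_ncard _ (hfin _)
          rintro m ⟨m1, m2, m3, m4, m5⟩
          refine ⟨m1, m2, m3, m4, fun j hj => ?_⟩
          obtain ⟨d1, d2, d3⟩ := m5 j hj
          rw [Function.iterate_succ_apply'] at d2 d3
          refine ⟨d1, ?_⟩
          exact D_gap_lower hS' hv hv0 (by omega) _ (hmem m m1 j) (hxy j hj).1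
            ((hxy j hj).2.1.trans (hxy j hj).2.2) ((hxy j hj).1.trans (hxy j hj).2.1)
            (by rw [hs] at d2; exact d2) (by rw [ht, hs] at d3; exact d3)
        exact_mod_cast this
      have h8 := (abs_le.1 h6).1
      linarith
    · -- the upper bound
      obtain ⟨s, hs⟩ : ∃ s : ℕ → ℕ, s = fun j => ⌊x j / v⌋₊ := ⟨_, rfl⟩
      obtain ⟨t, ht⟩ : ∃ t : ℕ → ℕ, t = fun j => ⌊(y j + B ^ 2 / (4 * X * v)) / v⌋₊ := ⟨_, rfl⟩
      have h6 := hgen s t
        (fun j hj => by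
          rw [hs, ht]
          apply Nat.floor_le_floor
          have h1 := (hxy j hj).2.1
          have h2 : 0 ≤ B ^ 2 / (4 * X * v) := by positivity
          gcongr
          linarith)
        (fun j hj => by
          obtain ⟨e1, e2⟩ := floor_close (u := x j) hv0 (hxy j hj).1
          rw [hs, abs_le]
          simp only
          constructor <;> linarith)
        (fun j hj => by
          obtain ⟨e1, e2⟩ := floor_close (u := y j + B ^ 2 / (4 * X * v)) hv0
            (by have := (hxy j hj).1.trans (hxy j hj).2.1; positivity)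
          rw [← hγ] at e1 e2
          rw [ht, abs_le]
          simp only
          rw [← hγ]
          constructor <;> linarith)
      have h7 : (Runs X r q K a b x y Z Y : ℝ) ≤ ((Set.ncard {n : ℕ | Z < n ∧ n ≤ Z + Y ∧
          Pool.Agent.R463.PP.Run (Sifted idf X r) q K a b s t n} : ℕ) : ℝ) := by
        unfold Runs
        rw [next_eq]
        simp only [rough_iff]
        have : Set.ncard {m : ℕ | Z < m ∧ m ≤ Z + Y ∧ Sifted idf X r m ∧ m % q = a ∧
              ∀ j < K, (Pool.Agent.R463.PP.next (Sifted idf X r))^[j + 1] m % q = b j ∧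
                x j < D X r ((Pool.Agent.R463.PP.next (Sifted idf X r))^[j] m) ∧
                D X r ((Pool.Agent.R463.PP.next (Sifted idf X r))^[j] m) ≤ y j} ≤
            Set.ncard {n : ℕ | Z < n ∧ n ≤ Z + Y ∧
              Pool.Agent.R463.PP.Run (Sifted idf X r) q K a b s t n} := by
          apply Set.ncard_le_ncard _ (hfin _)
          rintro m ⟨m1, m2, m3, m4, m5⟩
          refine ⟨m1, m2, m3, m4, fun j hj => ?_⟩
          obtain ⟨d1, d2, d3⟩ := m5 j hj
          rw [Function.iterate_succ_apply'] at d1 ⊢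
          have h9 := D_gap_upper hS' hv hv0 (by omega) _ (hmem m m1 j) (hxy j hj).1 (hxy j hj).2.2 d2 d3
          rw [hs, ht]
          exact ⟨d1, h9.1, h9.2⟩
        exact_mod_cast this
      have h8 := (abs_le.1 h6).2
      linarith

end Pool.Agent.Results.MP_3998cf_nt.RoughDifferences
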