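import Mathlib
import Pool.Agent.R291.RMW.U2
import Pool.Agent.R291.RMW.T4

set_option autoImplicit false

/-!
# Differences of square roots of the primes, in random models

The problem asks whether `√p_(n+1) - √p_n → 0`.  For EVERY sequential random model of the primes
(the integers are decided one after the other, only integers coprime to a fixed `Q` can be chosen,
and the conditional probability of choosing `n + 1` (coprime to `Q`) given the past is asymptotic to
`(Q / φ(Q)) / log n`; no independence is assumed; for `Q = 1` Cramér's model and the Hawkins random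
sieve are examples) we show: almost surely, for all sequences `k(n)` of natural numbers and all
`l ≥ 0` AT THE SAME TIME, `√q_(n+k(n)) - √q_n → l` if and only if `k(n) √(log n / n) → 2 l`, where
`q_n` is the member number `n` of the random set.  The case `k(n) = 1`, `l = 0` is the statement of
the problem for the model.
-/

open MeasureTheory Filter
open scoped Topology

namespace Pool.Agent.Results.MP_3998cf_nt.SquareRootsRandomModels

open Classical in
/-- the member number `n` (counted from `0`, in increasing order) of the infinite set `S` -/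
noncomputable def member (S : Set ℕ) (n : ℕ) : ℕ := Nat.nth (· ∈ S) n

end Pool.Agent.Results.MP_3998cf_nt.SquareRootsRandomModels

open Pool.Agent.Results.MP_3998cf_nt.SquareRootsRandomModels Pool.Agent.R528.RM Pool.Agent.R291.RMW

/-- Let `A n` be the event that `n` belongs to a random set `S` adapted to a filtration `ℱ`, let
`Q ≥ 1`, let no integer which is not coprime to `Q` be chosen, and let the conditional probability of
`A (n + 1)` given `ℱ n`, times `log n`, tend to `Q / φ(Q)` along the `n` with `n + 1` coprime to `Q`,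
almost surely.  Then, almost surely, `S` is infinite and with `q_n` its member number `n`:
(1) for ALL sequences `k` of natural numbers and all `l ≥ 0`, `√q_(n+k(n)) - √q_n → l` if and only if
`k(n) √(log n / n) → 2 l`;
(2) `√q_(n+1) - √q_n → 0`. -/
theorem Pool.Agent.Results.MP_3998cf_nt.SquareRootsRandomModels.result
    {Ω : Type} [mΩ : MeasurableSpace Ω] (μ : Measure Ω) [IsProbabilityMeasure μ]
    (ℱ : Filtration ℕ mΩ) (A : ℕ → Set Ω) (hA : ∀ n, MeasurableSet[ℱ n] (A n))
    (Q : ℕ) (hQ : 0 < Q) (hcop : ∀ n, ¬ Nat.Coprime n Q → A n = ∅)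
    (hd : ∀ᵐ ω ∂μ, Tendsto (fun n : ℕ =>
      (μ[(A (n + 1)).indicator (fun _ => (1 : ℝ)) | ℱ n]) ω * Real.log n)
      (atTop ⊓ 𝓟 {n : ℕ | Nat.Coprime (n + 1) Q}) (𝓝 ((Q : ℝ) / Nat.totient Q))) :
    ∀ᵐ ω ∂μ, {m | ω ∈ A m}.Infinite ∧
      (∀ (k : ℕ → ℕ) (l : ℝ), 0 ≤ l →
        (Tendsto (fun n : ℕ => √(member {m | ω ∈ A m} (n + k n) : ℝ) - √(member {m | ω ∈ A m} n : ℝ)) atTop (𝓝 l) ↔
          Tendsto (fun n : ℕ => (k n : ℝ) * √(Real.log n / n)) atTop (𝓝 (2 * l)))) ∧
      Tendsto (fun n : ℕ => √(member {m | ω ∈ A m} (n + 1) : ℝ) - √(member {m | ω ∈ A m} n : ℝ)) atTop (𝓝 0) := by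
  have hprof := Pool.Agent.R528.RM.dens_profile (μ := μ) (ℱ := ℱ) hA Q hQ hcop hd
  filter_upwards [cons_upper (μ := μ) (ℱ := ℱ) hA hQ hprof, long_count (μ := μ) (ℱ := ℱ) hA hQ hprof,
    total_count (μ := μ) (ℱ := ℱ) hA hQ hprof] with ω g1 g2 g3
  have hinf : {m | ω ∈ A m}.Infinite := by
    refine infinite_of fun K => ?_
    obtain ⟨q, hq, hqK⟩ := ((g1 2 (by norm_num)).and (eventually_ge_atTop K)).exists
    obtain ⟨m, hm, hqm, _⟩ := hq.1
    exact ⟨m, by omega, hm⟩
  have hN1 : ∀ ε : ℝ, 0 < ε → ∀ᶠ n : ℕ in atTop, ∀ H : ℕ, Real.log n ^ 3 ≤ H → H ≤ n →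
      |NN {m | ω ∈ A m} n (n + H) - H / Real.log n| ≤ ε * (H / Real.log n) := by
    intro ε hε
    filter_upwards [g2 ε hε] with n hn H h1 h2
    rw [← Ncl_NN (by omega)]
    exact hn H h1 h2
  have hN2 : Tendsto (fun n : ℕ => NN {m | ω ∈ A m} 0 n / (n / Real.log n)) atTop (𝓝 1) := by
    refine g3.congr fun n => ?_
    rw [Ncl_NN (Nat.zero_le n)]
  have hlaw : ∀ (k : ℕ → ℕ) (l : ℝ), 0 ≤ l →
        (Tendsto (fun n : ℕ => √(member {m | ω ∈ A m} (n + k n) : ℝ) - √(member {m | ω ∈ A m} n : ℝ)) atTop (𝓝 l) ↔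
          Tendsto (fun n : ℕ => (k n : ℝ) * √(Real.log n / n)) atTop (𝓝 (2 * l))) := fun k l hl =>
    sqrt_law hinf hN1 hN2 k hl
  refine ⟨hinf, hlaw, ?_⟩
  refine (hlaw (fun _ => 1) 0 le_rfl).2 ?_
  have h1 : Tendsto (fun n : ℕ => Real.log (n : ℝ) / n) atTop (𝓝 0) := by
    have h4 : Tendsto (fun x : ℝ => Real.log x / x) atTop (𝓝 0) := Real.isLittleO_log_id_atTop.tendsto_div_nhds_zero
    exact h4.comp tendsto_natCast_atTop_atTop
  have h2 := h1.sqrt
  rw [Real.sqrt_zero] at h2
  simpa using h2
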